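import Pool.Agent.helper51.VR.Spec

/-!
# Row vr:REM (MP_24e2e7_nt)
-/

set_option autoImplicit false
set_option linter.unusedSectionVars false

namespace Pool.Agent.VR

open Pool.Agent.RB NumberField IsDedekindDomain Module
open scoped nonZeroDivisors Real Classical IsMulCommutative

section aux

variable {F H : Type} [Field F] [NumberField F] [Field H] [NumberField H] [Algebra F H] [IsAbelianGalois F H]

theorem REM_toQ_mul (a b : MonoidAlgebra ℤ (H ≃ₐ[F] H)) : (toQ (a * b) : QGr F H) = toQ a * toQ b :=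
  map_mul (MonoidAlgebra.mapRingHom (H ≃ₐ[F] H) (Int.castRingHom ℚ)) a b

theorem REM_toQ_sub (a b : MonoidAlgebra ℤ (H ≃ₐ[F] H)) : (toQ (a - b) : QGr F H) = toQ a - toQ b :=
  map_sub (MonoidAlgebra.mapRingHom (H ≃ₐ[F] H) (Int.castRingHom ℚ)) a b

theorem REM_toQ_one : (toQ (1 : MonoidAlgebra ℤ (H ≃ₐ[F] H)) : QGr F H) = 1 :=
  map_one (MonoidAlgebra.mapRingHom (H ≃ₐ[F] H) (Int.castRingHom ℚ))

theorem REM_toQ_nat (n : ℕ) : (toQ ((n : ℕ) : MonoidAlgebra ℤ (H ≃ₐ[F] H)) : QGr F H) = (n : QGr F H) :=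
  map_natCast (MonoidAlgebra.mapRingHom (H ≃ₐ[F] H) (Int.castRingHom ℚ)) n

theorem REM_toQ_single (σ : H ≃ₐ[F] H) : (toQ (MonoidAlgebra.single σ 1) : QGr F H) = sg σ := by
  unfold toQ sg
  simp

theorem REM_cancel (k : ℕ) (hk : k ≠ 0) (a b : QGr F H) (h : (k : QGr F H) * a = (k : QGr F H) * b) : a = b := by
  have h1 : IsUnit ((k : ℕ) : MonoidAlgebra ℚ (H ≃ₐ[F] H)) := by
    have h2 : IsUnit ((k : ℚ)) := (Nat.cast_ne_zero.2 hk).isUnit
    have h3 := h2.map (algebraMap ℚ (MonoidAlgebra ℚ (H ≃ₐ[F] H)))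
    rwa [map_natCast] at h3
  have h4 : IsUnit ((k : ℕ) : QGr F H) := h1
  exact h4.mul_left_cancel h

end aux

theorem REM (hEXT : EXT_stmt) (hDSY : DSY_stmt) (hPWR : PWR_stmt) (hFCT : FCT_stmt) : REM_stmt := by
  intro F H _ _ _ _ _ _ _ r D D' hS hT hvw Θ hΘ hRub n u hDS φ hφ
  have hcc : D'.c = D.c := RData_c_eq D' D
  have hrange : Set.range D.v ⊆ Set.range D'.v := by
    rintro _ ⟨i, rfl⟩
    exact ⟨i.succ, (hvw i).1⟩
  obtain ⟨hle, hext⟩ := hEXT F H r (r + 1) D D' hT hrange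
  obtain ⟨n', u', hDS'⟩ := hDSY F H (r + 1) D'
  obtain ⟨hn0, hu, huo⟩ := hDS
  obtain ⟨hn0', hu', huo'⟩ := hDS'
  obtain ⟨-, -, hP3, hP4⟩ := hPWR F H (D'.T : Set (HOS F)) (Set.range D'.v)
  have hpow : ∀ (w : HOS H), ∀ x ∈ UU D', ∀ m : ℕ, ordZ F w ((x ^ m : Hˣ) : H) = m • ordZ F w (x : H) :=
    fun w x hx m => (hP3 _ (hP4 w)).2.2 x hx m
  -- the first prime is not in the range of `D.v`
  have hv0 : D'.v 0 ∉ Set.range D.v := by
    rintro ⟨i, hi⟩
    rw [← (hvw i).1] at hi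
    exact absurd (D'.hv hi) (Fin.succ_ne_zero i)
  have hord0 : ∀ x ∈ UU D, ordZ F (D'.w 0) (x : H) = 0 := by
    intro x hx
    obtain ⟨-, -, -, -, -, h6, -, -⟩ := hFCT F H (r + 1) D'
    obtain ⟨-, -, -, -, h5, -, -, -⟩ := hFCT F H r D
    rw [h6 x 0]
    intro P hP
    refine ((h5 x).1 hx).2 P ?_
    rw [hP]
    exact hv0
  -- the new dual system
  have hconj : ∀ (x : Hˣ) (m : ℕ), (x : H) * D'.c (x : H) = 1 → ((x ^ m : Hˣ) : H) * D'.c ((x ^ m : Hˣ) : H) = 1 := by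
    intro x m h
    rw [Units.val_pow_eq_pow_val, map_pow, ← mul_pow, h, one_pow]
  set U0 : Fin (r + 1) → Hˣ := Fin.cons (u' 0 ^ n) (fun j => u j ^ n') with hU0
  have hU00 : U0 0 = u' 0 ^ n := rfl
  have hU0s : ∀ j : Fin r, U0 j.succ = u j ^ n' := fun j => rfl
  have hnew : DS D' (n * n') U0 := by
    refine ⟨Nat.mul_ne_zero hn0 hn0', ?_, ?_⟩
    · intro i
      refine Fin.cases ?_ (fun j => ?_) i
      · rw [hU00]
        exact ⟨(UU D').pow_mem (hu' 0).1 n, hconj _ _ (hu' 0).2⟩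
      · rw [hU0s]
        refine ⟨(UU D').pow_mem (hle (hu j).1) n', hconj _ _ ?_⟩
        rw [hcc]
        exact (hu j).2
    · intro i j
      refine Fin.cases ?_ (fun j' => ?_) j
      · rw [hU00, hpow _ _ (hu' 0).1, huo' i 0]
        by_cases h : i = 0
        · rw [if_pos h, if_pos h, smul_smul]
        · rw [if_neg h, if_neg h, smul_zero]
      · rw [hU0s, hpow _ _ (hle (hu j').1)]
        refine Fin.cases ?_ (fun i' => ?_) i
        · rw [hord0 _ (hu j').1, smul_zero, if_neg (Fin.succ_ne_zero j').symm]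
        · rw [(hvw i').2, huo i' j', hcc]
          by_cases h : i' = j'
          · rw [if_pos h, if_pos (by rw [h]), smul_smul, mul_comm]
          · rw [if_neg h, if_neg (fun h' => h (Fin.succ_injective _ h')), smul_zero]
  -- the homomorphisms
  have hch : ∀ i, ∃ φ' : Hˣ → MonoidAlgebra ℤ (H ≃ₐ[F] H), IsGH (UU D') φ' ∧ ∀ x ∈ UU D, φ' x = φ i x :=
    fun i => hext (φ i) (hφ i)
  choose φ' hφ'1 hφ'2 using hch
  set Φ : Fin (r + 1) → Hˣ → MonoidAlgebra ℤ (H ≃ₐ[F] H) := Fin.cons (fun x => ordZ F (D'.w 0) (x : H)) φ' with hΦ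
  have hΦ0 : Φ 0 = fun x : Hˣ => ordZ F (D'.w 0) (x : H) := rfl
  have hΦs : ∀ i : Fin r, Φ i.succ = φ' i := fun i => rfl
  have hΦg : ∀ i, IsGH (UU D') (Φ i) := by
    intro i
    refine Fin.cases ?_ (fun j => ?_) i
    · rw [hΦ0]
      exact hP4 _
    · rw [hΦs]
      exact hφ'1 j
  obtain ⟨d, y, hd, hy⟩ := hRub (n * n') U0 hnew Φ hΦg
  refine ⟨d, y, hd, ?_⟩
  -- the determinant
  have hminor : ∀ i j : Fin r, Φ i.succ (U0 j.succ) = (n' : MonoidAlgebra ℤ (H ≃ₐ[F] H)) * φ i (u j) := by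
    intro i j
    rw [hΦs, hU0s, (hP3 _ (hφ'1 i)).2.2 _ (hle (hu j).1), hφ'2 i _ (hu j).1, nsmul_eq_mul]
  have hdet : Matrix.det (fun i j => Φ i (U0 j)) =
      ((n * n' : ℕ) : MonoidAlgebra ℤ (H ≃ₐ[F] H)) * (1 - MonoidAlgebra.single D.c 1) *
        (((n' ^ r : ℕ) : MonoidAlgebra ℤ (H ≃ₐ[F] H)) * Matrix.det (fun i j => φ i (u j))) := by
    rw [Matrix.det_succ_row_zero, Finset.sum_eq_single 0]
    · have h1 : Φ 0 (U0 0) = ((n * n' : ℕ) : MonoidAlgebra ℤ (H ≃ₐ[F] H)) * (1 - MonoidAlgebra.single D.c 1) := by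
        rw [hΦ0]
        have h2 := hnew.2.2 0 0
        rw [if_pos rfl, hcc, nsmul_eq_mul] at h2
        exact h2
      have h3 : Matrix.det (Matrix.submatrix (fun i j => Φ i (U0 j)) Fin.succ (Fin.succAbove 0)) =
          ((n' ^ r : ℕ) : MonoidAlgebra ℤ (H ≃ₐ[F] H)) * Matrix.det (fun i j => φ i (u j)) := by
        have h4 : (Matrix.submatrix (fun i j => Φ i (U0 j)) Fin.succ (Fin.succAbove 0) :
            Matrix (Fin r) (Fin r) (MonoidAlgebra ℤ (H ≃ₐ[F] H))) =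
            (n' : MonoidAlgebra ℤ (H ≃ₐ[F] H)) • (Matrix.of fun i j => φ i (u j)) := by
          ext1 i j
          change Φ i.succ (U0 (Fin.succAbove 0 j)) = (n' : MonoidAlgebra ℤ (H ≃ₐ[F] H)) * φ i (u j)
          rw [Fin.succAbove_zero]
          exact hminor i j
        rw [h4, Matrix.det_smul, Fintype.card_fin, Nat.cast_pow]
        rfl
      rw [h3, h1]
      simp
    · intro j _ hj
      have h1 : Φ 0 (U0 j) = 0 := by
        rw [hΦ0]
        have h2 := hnew.2.2 0 j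
        rw [if_neg hj.symm] at h2
        exact h2
      rw [h1, mul_zero, zero_mul]
    · intro h
      exact absurd (Finset.mem_univ _) h
  rw [hdet, REM_toQ_mul, REM_toQ_mul, REM_toQ_mul, REM_toQ_sub, REM_toQ_one, REM_toQ_nat, REM_toQ_nat,
    REM_toQ_single] at hy
  refine REM_cancel (2 * (n * n') * n' ^ r) (by positivity) _ _ ?_
  push_cast at hy ⊢
  linear_combination hy + (d : QGr F H) * ((n : QGr F H) * n' * n' ^ r * toQ (Matrix.det fun i j => φ i (u j))) * hΘ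

end Pool.Agent.VR
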